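import Pool.Agent.helper95.T6.SpecE
import Pool.Agent.helper43.T5.RE1
import Pool.Agent.helper71.T5.RE2

/-!
# T6L, row ECA: the tuples of a type as one congruence
-/

set_option autoImplicit false

namespace Pool.Agent.T6

open Finset Pool.Agent.helper3.FT Pool.Agent.T5

theorem ECA_inv (a Q : ℤ) (h : IsCoprime a Q) : ∃ x : ℤ, Q ∣ a * x - 1 := by
  obtain ⟨u, v, huv⟩ := h
  exact ⟨u, -v, by linear_combination huv⟩

theorem ECA_cop (n e : ℤ) (h : e ∣ n - 1) : IsCoprime n e := by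
  obtain ⟨c, hc⟩ := h
  exact ⟨1, -c, by linear_combination hc⟩

theorem ECA : ECA_stmt := by
  intro n k e P₁ P₂ P₃ hn hk he hP₁ hP₂ hP₃ hnk hen hek hc₁ hc₂ hc₃
  have hn0 : (n : ℤ) ≠ 0 := by exact_mod_cast (by omega : n ≠ 0)
  have hk0 : (k : ℤ) ≠ 0 := by exact_mod_cast (by omega : k ≠ 0)
  have he0 : (e : ℤ) ≠ 0 := by exact_mod_cast (by omega : e ≠ 0)
  have hnk' : IsCoprime (n : ℤ) (k : ℤ) := Nat.isCoprime_iff_coprime.2 hnk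
  have hne : IsCoprime (n : ℤ) (e : ℤ) := ECA_cop _ _ hen
  have hke : IsCoprime (k : ℤ) (e : ℤ) := ECA_cop _ _ hek
  have h1 : IsCoprime ((n : ℤ) * 1) ((k : ℤ) * e) := by
    rw [mul_one]
    exact hnk'.mul_right hne
  obtain ⟨α, β, γ, hres⟩ := RE1 n k 1 1 1 e h1 isCoprime_one_left isCoprime_one_left
  obtain ⟨c₀, hc₀⟩ := RE2 n k 1 1 1 e α β γ h1 isCoprime_one_left isCoprime_one_left hres 1 0
  have hresG : ResG n k 1 1 1 1 α β γ := by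
    obtain ⟨a1, a2, a3, a4, a5, a6⟩ := hres
    have hd : (k : ℤ) * 1 ∣ (k : ℤ) * e := mul_dvd_mul_left _ (one_dvd _)
    exact ⟨a1, a2, a3, hd.trans a4, hd.trans a5, hd.trans a6⟩
  -- the inverse of `P₃`
  have hcopQ : IsCoprime (P₃ : ℤ) ((n : ℤ) ^ 3 * k * e) := by
    have h2 : IsCoprime (P₃ : ℤ) ((n * k * e : ℕ) : ℤ) := Nat.isCoprime_iff_coprime.2 hc₃
    push_cast at h2
    have h3 := IsCoprime.of_mul_right_left h2
    have h4 : IsCoprime (P₃ : ℤ) (e : ℤ) := IsCoprime.of_mul_right_right h2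
    have h5 : IsCoprime (P₃ : ℤ) (n : ℤ) := IsCoprime.of_mul_right_left h3
    have h6 : IsCoprime (P₃ : ℤ) (k : ℤ) := IsCoprime.of_mul_right_right h3
    exact (h5.pow_right.mul_right h6).mul_right h4
  obtain ⟨P, hP⟩ := ECA_inv _ _ hcopQ
  have hPd : (n : ℤ) ^ 3 * k ∣ P₃ * P - 1 := (Dvd.intro _ rfl).trans hP
  -- the class of `g`
  obtain ⟨x, hx⟩ := ECA_inv (P₂ : ℤ) (e : ℤ) (Nat.isCoprime_iff_coprime.2 hc₂)
  have hPe : 0 < (P₂ : ℤ) * e := by positivity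
  obtain ⟨g₀, hg₀⟩ : ∃ g₀ : ℤ, g₀ = (P₂ * x) % (P₂ * e) := ⟨_, rfl⟩
  have hg₀d : (P₂ : ℤ) * e ∣ P₂ * x - g₀ := by
    rw [hg₀]
    exact Int.dvd_self_sub_emod
  have hg1 : (P₂ : ℤ) ∣ g₀ := by
    have h2 : (P₂ : ℤ) ∣ P₂ * x - g₀ := (Dvd.intro _ rfl).trans hg₀d
    have h3 : g₀ = P₂ * x - (P₂ * x - g₀) := by ring
    rw [h3]
    exact dvd_sub (Dvd.intro _ rfl) h2
  have hg2 : (e : ℤ) ∣ g₀ - 1 := by
    have h2 : (e : ℤ) ∣ P₂ * x - g₀ := (Dvd.intro_left _ rfl).trans hg₀d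
    have h3 : g₀ - 1 = (P₂ * x - 1) - (P₂ * x - g₀) := by ring
    rw [h3]
    exact dvd_sub hx h2
  refine ⟨(P * P₁ ^ 2 * α, P * P₁ * P₂ * β, P * P₂ ^ 2 * γ), ⟨α, β, γ, hresG, ?_, ?_, ?_⟩, g₀,
    P * β * P₁ * g₀ / ((n : ℝ) ^ 3 * k), 2 * P * γ * g₀ * P₂ / ((n : ℝ) ^ 3 * k),
    P * (γ * g₀ ^ 2 + c₀) / ((n : ℝ) ^ 3 * k * e), ?_, ?_, ?_⟩
  · have h2 : (P₃ : ℤ) * (P * P₁ ^ 2 * α) - P₁ ^ 2 * α = (P₃ * P - 1) * (P₁ ^ 2 * α) := by ring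
    rw [h2]
    exact hPd.mul_right _
  · have h2 : (P₃ : ℤ) * (P * P₁ * P₂ * β) - P₁ * P₂ * β = (P₃ * P - 1) * (P₁ * P₂ * β) := by ring
    rw [h2]
    exact hPd.mul_right _
  · have h2 : (P₃ : ℤ) * (P * P₂ ^ 2 * γ) - P₂ ^ 2 * γ = (P₃ * P - 1) * (P₂ ^ 2 * γ) := by ring
    rw [h2]
    exact hPd.mul_right _
  · rw [hg₀]
    exact Int.emod_nonneg _ hPe.ne'
  · rw [hg₀]
    exact Int.emod_lt_of_pos _ hPe
  · rintro ⟨⟨n', k'⟩, ⟨m, g, Z⟩⟩ ht h1' hC hm hg hZ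
    obtain ⟨rfl, rfl⟩ : n' = n ∧ k' = k := by simpa using h1'
    obtain ⟨-, -, -, c1, c2⟩ := ht
    obtain ⟨-, -, dm, dg, dz⟩ := hC
    simp only at c1 c2 dm dg dz hm hg hZ ⊢
    have hQ : (n' : ℤ) ^ 3 * 1 * ((k' : ℤ) * e) ∣ Z - (α * m ^ 2 + β * m * g + γ * g ^ 2 + c₀) := by
      rw [hc₀]
      constructor
      · rw [mul_one]
        have h2 : 1 * Z * (k' : ℤ) ^ 4 + 1 * m * g * (k' : ℤ) ^ 2 - 1 * g ^ 2 * (n' : ℤ) ^ 2 + (n' : ℤ) ^ 3 * 0 =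
            Z * (k' : ℤ) ^ 4 + m * g * (k' : ℤ) ^ 2 - g ^ 2 * (n' : ℤ) ^ 2 := by ring
        rw [h2]
        exact c1
      · refine hke.mul_dvd ?_ ?_
        · have h2 : 1 * Z * (n' : ℤ) ^ 2 - 1 * m ^ 2 - k' * 1 = -(m ^ 2 - Z * (n' : ℤ) ^ 2) - k' * 1 := by ring
          rw [h2]
          exact dvd_sub ((dvd_neg).2 c2) (Dvd.intro _ rfl)
        · obtain ⟨u1, hu1⟩ := dm
          obtain ⟨u2, hu2⟩ := dz
          obtain ⟨u3, hu3⟩ := hen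
          obtain ⟨u4, hu4⟩ := hek
          have e2 : Z = 1 + e * u2 := by linear_combination hu2
          have e3 : (n' : ℤ) = 1 + e * u3 := by linear_combination hu3
          have e4 : (k' : ℤ) = 1 + e * u4 := by linear_combination hu4
          rw [hu1, e2, e3, e4]
          refine ⟨u2 * (1 + e * u3) ^ 2 + 2 * u3 + e * u3 ^ 2 - e * u1 ^ 2 - u4, by ring⟩
    obtain ⟨w, hw⟩ := hQ
    obtain ⟨z, rfl⟩ := hZ
    obtain ⟨m', hm'⟩ : (P₁ : ℤ) * e ∣ m := (Nat.isCoprime_iff_coprime.2 hc₁).mul_dvd hm dm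
    obtain ⟨g', hg'⟩ : (P₂ : ℤ) * e ∣ g - g₀ := by
      refine (Nat.isCoprime_iff_coprime.2 hc₂).mul_dvd (dvd_sub hg hg1) ?_
      have h2 : g - g₀ = (g - 1) - (g₀ - 1) := by ring
      rw [h2]
      exact dvd_sub dg hg2
    have hg'' : g = g₀ + P₂ * e * g' := by linear_combination hg'
    obtain ⟨v, hv⟩ := hP
    -- `z = P (..) + Q z'`
    obtain ⟨z', hz'⟩ : ∃ z' : ℤ, z = P * (α * m ^ 2 + β * m * g + γ * g ^ 2 + c₀) + (n' : ℤ) ^ 3 * k' * e * z' :=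
      ⟨P * w - v * z, by linear_combination P * hw - z * hv⟩
    refine ⟨m', g', z', hm', hg'', ?_⟩
    have hnR : (n' : ℝ) ≠ 0 := by exact_mod_cast hn0
    have hkR : (k' : ℝ) ≠ 0 := by exact_mod_cast hk0
    have heR : (e : ℝ) ≠ 0 := by exact_mod_cast he0
    have hPR : (P₃ : ℝ) ≠ 0 := by
      have : P₃ ≠ 0 := by omega
      exact_mod_cast this
    rw [hm', hg''] at hz'
    have hzR : (z : ℝ) = P * (α * (P₁ * e * m') ^ 2 + β * (P₁ * e * m') * (g₀ + P₂ * e * g') +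
        γ * (g₀ + P₂ * e * g') ^ 2 + c₀) + (n' : ℝ) ^ 3 * k' * e * z' := by exact_mod_cast hz'
    push_cast
    rw [mul_div_mul_left _ _ hPR, hzR]
    field_simp
    ring

end Pool.Agent.T6
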